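import Mathlib
import Pool.Agent.H39.BurckelCore

set_option autoImplicit false

namespace Pool.Agent.Results.MP_2bbbb5_co.BurckelIffSeymour

open Pool.Agent.H39.Burckel

/-- Seymour's statement for the rooted oriented graphs `(G, x)` with property `P`:
each of them has a Seymour vertex. -/
def SeymourFor (P : ∀ V : Type, Digraph V → V → Prop) : Prop :=
  ∀ (V : Type) [Fintype V] (G : Digraph V) (x : V), Oriented G → P V G x →
    ∃ v : V, IsSeymour G v

/-- Burckel's statement for the rooted oriented graphs `(G, x)` with property `P`:
each of them has a Seymour vertex at distance at most the out-degree of `x` from `x`. -/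
def BurckelFor (P : ∀ V : Type, Digraph V → V → Prop) : Prop :=
  ∀ (V : Type) [Fintype V] (G : Digraph V) (x : V), Oriented G → P V G x →
    ∃ g : V, IsSeymour G g ∧ WithinDist G {w : V | G.Adj x w}.ncard x g

/-- The property `P` of rooted digraphs passes to induced subgraphs that contain the root. -/
def RootHereditary (P : ∀ V : Type, Digraph V → V → Prop) : Prop :=
  ∀ (V : Type) [Fintype V] (G : Digraph V) (x : V) (C : Finset V) (hx : x ∈ C),
    P V G x → P {v // v ∈ C} (induce G C) ⟨x, hx⟩

theorem forward (P : ∀ V : Type, Digraph V → V → Prop) (hP : RootHereditary P)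
    (h : SeymourFor P) : BurckelFor P := by
  classical
  intro V _ G x hG hx
  have key := local_principle G hG x ?_
  · rw [ncard_N]
    exact key
  · intro C hC
    obtain ⟨f, hf⟩ := h {v // v ∈ C} (induce G C) ⟨x, hC⟩ (induce_oriented G hG C)
      (hP V G x C hC hx)
    refine ⟨f.1, f.2, ?_⟩
    have hf' := hf
    unfold IsSeymour at hf'
    rw [ncard_induce_N, ncard_induce_N2] at hf'
    exact hf'

/-- **Burckel's distance conjecture is equivalent to Seymour's second neighbourhood conjecture**,
and more generally the two are equivalent on every class of rooted oriented graphs that is closed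
under induced subgraphs containing the root. -/
theorem result :
    ((∀ (V : Type) [Fintype V] [Nonempty V] (G : Digraph V), Oriented G →
        ∃ v : V, IsSeymour G v) ↔
      (∀ (V : Type) [Fintype V] (G : Digraph V), Oriented G → ∀ x : V,
        ∃ g : V, IsSeymour G g ∧ WithinDist G {w : V | G.Adj x w}.ncard x g)) ∧
    ∀ P : ∀ V : Type, Digraph V → V → Prop, RootHereditary P →
      (SeymourFor P ↔ BurckelFor P) := by
  have gen : ∀ P : ∀ V : Type, Digraph V → V → Prop, RootHereditary P →
      (SeymourFor P ↔ BurckelFor P) := by
    intro P hP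
    refine ⟨forward P hP, ?_⟩
    intro h V _ G x hG hx
    obtain ⟨g, hg, _⟩ := h V G x hG hx
    exact ⟨g, hg⟩
  refine ⟨?_, gen⟩
  constructor
  · intro h V _ G hG x
    have h1 : SeymourFor (fun _ _ _ => True) := by
      intro V _ G x hG _
      haveI : Nonempty V := ⟨x⟩
      exact h V G hG
    exact (gen (fun _ _ _ => True) (fun _ _ _ _ _ _ _ => trivial)).1 h1 V G x hG trivial
  · intro h V _ hne G hG
    obtain ⟨x⟩ := hne
    obtain ⟨g, hg, _⟩ := h V G hG x
    exact ⟨g, hg⟩

end Pool.Agent.Results.MP_2bbbb5_co.BurckelIffSeymour
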