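import Mathlib
import Pool.Agent.H39.BurckelCSY

set_option autoImplicit false

namespace Pool.Agent.Results.MP_2bbbb5_co.LocalCSY

open Pool.Agent.H39.Burckel

/-- **Local form of the theorem of Chen, Shen and Yuster.** With `γ = 0.657298...` the positive root
of `2 γ ^ 3 + γ ^ 2 = 1`, every vertex `x` of a finite oriented graph has a vertex `g` at distance
at most `m` with second out-neighbourhood at least `γ` times the first, where `m = 0` or
`γ ^ (m - 1) * outdeg x ≥ 1`, that is, `m ≤ 1 + log (outdeg x) / log (1 / γ)`. -/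
theorem result (γ : ℝ) (hγ0 : 0 < γ) (hγ : 2 * γ ^ 3 + γ ^ 2 = 1)
    (V : Type) [Fintype V] (G : Digraph V) (hG : Oriented G) (x : V) :
    ∃ g : V, ∃ m : ℕ, WithinDist G m x g ∧
      (m = 0 ∨ 1 ≤ γ ^ (m - 1) * ({w : V | G.Adj x w}.ncard : ℝ)) ∧
      γ * ({w : V | G.Adj g w}.ncard : ℝ) ≤
        ({w : V | w ≠ g ∧ ¬ G.Adj g w ∧ ∃ u : V, G.Adj g u ∧ G.Adj u w}.ncard : ℝ) := by
  classical
  obtain ⟨g, m, hm, hg, hm1⟩ := local_factor G hG γ hγ0 x
    (fun C hC => csy G hG γ hγ0 hγ C ⟨x, hC⟩)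
  refine ⟨g, m, hm, ?_, ?_⟩
  · rw [ncard_N]
    exact hm1
  · rw [ncard_N]
    have : {w : V | w ≠ g ∧ ¬ G.Adj g w ∧ ∃ u : V, G.Adj g u ∧ G.Adj u w} = ↑(N2 G g) := by
      ext w
      simp [N2]
    rw [this, Set.ncard_coe_finset]
    exact hg

end Pool.Agent.Results.MP_2bbbb5_co.LocalCSY
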