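import Mathlib
import Pool.Agent.H39.S7.Main

set_option autoImplicit false

namespace Pool.Agent.Results.MP_2bbbb5_co.OutdegreeSeven

open Pool.Agent.H39.Burckel Pool.Agent.H39.S7

/-- **Burckel's conjecture for all out-degrees `k ≤ 7`.** In every finite oriented graph, from every
vertex `x` of out-degree at most seven some Seymour vertex is at distance at most the out-degree
of `x`. -/
theorem result (V : Type) [Fintype V] (G : Digraph V) (hG : Oriented G) (x : V)
    (hx : {w : V | G.Adj x w}.ncard ≤ 7) :
    ∃ g : V, IsSeymour G g ∧ WithinDist G {w : V | G.Adj x w}.ncard x g := by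
  classical
  rw [ncard_N] at hx
  rw [ncard_N]
  refine local_principle G hG x ?_
  intro C hC
  obtain ⟨f, hf⟩ := seymour_seven (induce G C) (induce_oriented G hG C) ⟨x, hC⟩ (by
    rw [← ncard_N, ncard_induce_N]
    exact (Finset.card_le_card Finset.inter_subset_left).trans hx)
  refine ⟨f.1, f.2, ?_⟩
  have hf' := hf
  unfold IsSeymour at hf'
  rw [ncard_induce_N, ncard_induce_N2] at hf'
  exact hf'

end Pool.Agent.Results.MP_2bbbb5_co.OutdegreeSeven
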