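import Mathlib
import Pool.Agent.H17.SN.Ball6
import Pool.Agent.H17.SN.Ball8

set_option autoImplicit false

namespace Pool.Agent.Results.MP_2bbbb5_co.WithinTwo

open Classical Pool.Agent.H39.Burckel

/-- `a` and `b` are different and not adjacent -/
def NonAdj {V : Type} (G : Digraph V) (a b : V) : Prop := a ≠ b ∧ ¬ G.Adj a b ∧ ¬ G.Adj b a

/-- every out-neighbour of `b` is at distance at most two from `a` -/
def Sees {V : Type} (G : Digraph V) (a b : V) : Prop := ∀ v, G.Adj b v → WithinDist G 2 a v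

/-- Condition (T), for the non-adjacent pairs `a, b` of vertices at distance at most two from `x`
(if there are no such pairs, it holds): `a` sees the out-neighbours of `b` and conversely, or one of
them sees the other one and its out-neighbours. -/
def CondT {V : Type} (G : Digraph V) (x : V) : Prop :=
  ∀ a b, WithinDist G 2 x a → WithinDist G 2 x b → NonAdj G a b →
    (Sees G a b ∧ Sees G b a) ∨ (Sees G a b ∧ WithinDist G 2 a b) ∨
      (Sees G b a ∧ WithinDist G 2 b a)

/-- Condition (M): among the vertices at distance at most three from `x` everyone is non-adjacent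
to at most one other one. -/
def CondM {V : Type} (G : Digraph V) (x : V) : Prop :=
  ∀ a b c, WithinDist G 3 x a → WithinDist G 3 x b → WithinDist G 3 x c →
    NonAdj G a b → NonAdj G a c → b = c

/-- Condition (S): among the vertices at distance at most three from `x` the non-adjacent pairs
form a threshold graph, i.e. there are no `a, b, c, d` such that `a, b` and `c, d` are non-adjacent
while `b, c` and `d, a` are adjacent. -/
def CondS {V : Type} (G : Digraph V) (x : V) : Prop :=
  ∀ a b c d, WithinDist G 3 x a → WithinDist G 3 x b → WithinDist G 3 x c → WithinDist G 3 x d →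
    NonAdj G a b → NonAdj G c d → (G.Adj b c ∨ G.Adj c b) → (G.Adj d a ∨ G.Adj a d) → False

/-- **A Seymour vertex at distance at most two.**
(1) exact form under each of the conditions (T), (M), (S), with `min (2, k)` for `k`;
(2) all nonnegative vertex weights, under (T);
(3) approximate form with error `min (d ^ 2) (4 * d) + s`, if `x` and all but at most `s` of the
vertices at distance at most three from `x` are non-adjacent to at most `d` others of them;
(4) approximate form with error `4 √m` if `m` ordered pairs of vertices are non-adjacent;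
(5) the distance two cannot be replaced by one, for a tournament on six vertices. -/
theorem result :
    (∀ (V : Type) [Fintype V] (G : Digraph V) (x : V), Oriented G →
      (CondT G x ∨ CondM G x ∨ CondS G x) →
        ∃ g : V, IsSeymour G g ∧ WithinDist G (min 2 {w : V | G.Adj x w}.ncard) x g) ∧
    (∀ (V : Type) [Fintype V] (G : Digraph V) (x : V), Oriented G → CondT G x →
      ∀ ω : V → ℝ, (∀ v, 0 ≤ ω v) → ∃ g : V, WithinDist G 2 x g ∧
        ∑ w ∈ Finset.univ.filter (fun w => G.Adj g w), ω w ≤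
          ∑ w ∈ Finset.univ.filter (fun w => w ≠ g ∧ ¬ G.Adj g w ∧ ∃ u, G.Adj g u ∧ G.Adj u w),
            ω w) ∧
    (∀ (V : Type) [Fintype V] (G : Digraph V) (x : V) (d s : ℕ), Oriented G →
      {b | WithinDist G 3 x b ∧ NonAdj G x b}.ncard ≤ d →
      {a | WithinDist G 3 x a ∧ d < {b | WithinDist G 3 x b ∧ NonAdj G a b}.ncard}.ncard ≤ s →
        ∃ g : V, WithinDist G 2 x g ∧ {w : V | G.Adj g w}.ncard ≤
          {w : V | w ≠ g ∧ ¬ G.Adj g w ∧ ∃ u : V, G.Adj g u ∧ G.Adj u w}.ncard +
            min (d ^ 2) (4 * d) + s) ∧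
    (∀ (V : Type) [Fintype V] [Nonempty V] (G : Digraph V), Oriented G →
      ∃ g : V, ({w : V | G.Adj g w}.ncard : ℝ) ≤
        ({w : V | w ≠ g ∧ ¬ G.Adj g w ∧ ∃ u : V, G.Adj g u ∧ G.Adj u w}.ncard : ℝ) +
          4 * Real.sqrt ({p : V × V | NonAdj G p.1 p.2}.ncard : ℝ)) ∧
    (∃ (G : Digraph (Fin 6)) (x : Fin 6), Oriented G ∧
      (∀ a b, a ≠ b → G.Adj a b ∨ G.Adj b a) ∧ ∀ g, WithinDist G 1 x g → ¬ IsSeymour G g) := by
  have hw : ∀ (V : Type) [Fintype V] (G : Digraph V) (x : V), Oriented G → CondT G x →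
      ∀ ω : V → ℝ, (∀ v, 0 ≤ ω v) → ∃ g : V, WithinDist G 2 x g ∧
        ∑ w ∈ N G g, ω w ≤ ∑ w ∈ N2 G g, ω w := by
    intro V _ G x hG hT ω hω
    obtain ⟨q, h1, h2, h3, h4⟩ := Pool.Agent.H17.SN.ball_dist G hG x
      (fun a b ha hb h5 h6 h7 => hT a b ha hb ⟨h5, h6, h7⟩)
    obtain ⟨g, h5, h6⟩ := Pool.Agent.H17.SN.exists_of_dist G q h1 h3 h4 ω hω
    refine ⟨g, ?_, h6⟩
    by_contra h
    exact h5 (h2 g h)
  have hN2 : ∀ (V : Type) [Fintype V] (G : Digraph V) (g : V),
      {w : V | w ≠ g ∧ ¬ G.Adj g w ∧ ∃ u : V, G.Adj g u ∧ G.Adj u w}.ncard = (N2 G g).card := by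
    intro V _ G g
    have h3 : {w : V | w ≠ g ∧ ¬ G.Adj g w ∧ ∃ u : V, G.Adj g u ∧ G.Adj u w} = ↑(N2 G g) := by
      ext w
      rw [Finset.mem_coe, mem_N2]
      exact Iff.rfl
    rw [h3, Set.ncard_coe_finset]
  refine ⟨?_, ?_, ?_, ?_, ?_⟩
  · intro V _ G x hG h
    refine Pool.Agent.H17.SN.two_of G hG x ?_
    rcases h with h | h | h
    · obtain ⟨g, h1, h2⟩ := hw V G x hG h (fun _ => 1) (fun _ => zero_le_one)
      refine ⟨g, h1, ?_⟩
      rw [Finset.sum_const, Finset.sum_const, nsmul_eq_mul, nsmul_eq_mul, mul_one, mul_one] at h2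
      exact_mod_cast h2
    · obtain ⟨g, h1, h2⟩ := Pool.Agent.H17.SN.ball_matching hG x h
      exact ⟨g, (Pool.Agent.H17.SN.near_iff G x g).2 h1, h2⟩
    · obtain ⟨g, h1, h2⟩ := Pool.Agent.H17.SN.ball_threshold hG x h
      exact ⟨g, (Pool.Agent.H17.SN.near_iff G x g).2 h1, h2⟩
  · intro V _ G x hG hT ω hω
    obtain ⟨g, h1, h2⟩ := hw V G x hG hT ω hω
    refine ⟨g, h1, ?_⟩
    unfold N N2 at h2
    convert h2
  · intro V _ G x d s hG hx hs
    have hdg : ∀ a, {b | WithinDist G 3 x b ∧ NonAdj G a b}.ncard =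
        Pool.Agent.H17.SN.dg G x a := by
      intro a
      unfold Pool.Agent.H17.SN.dg
      rw [← Set.ncard_coe_finset]
      congr 1
      ext b
      rw [Finset.mem_coe, Finset.mem_filter]
      exact ⟨fun h => ⟨Finset.mem_univ _, h⟩, fun h => h.2⟩
    set S : Finset V := Finset.univ.filter
      (fun a => WithinDist G 3 x a ∧ d < Pool.Agent.H17.SN.dg G x a) with hS
    have hSs : S.card ≤ s := by
      refine le_trans (le_of_eq ?_) hs
      rw [← Set.ncard_coe_finset]
      congr 1
      ext a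
      rw [hS, Finset.mem_coe, Finset.mem_filter, Set.mem_setOf_eq, hdg a]
      exact ⟨fun h => h.2, fun h => ⟨Finset.mem_univ _, h⟩⟩
    obtain ⟨g, -, h1, h2⟩ := Pool.Agent.H17.SN.ball_except hG x d S (by
      intro h
      have h3 := (Finset.mem_filter.1 h).2.2
      rw [hdg x] at hx
      omega) (by
      intro a ha haS
      by_contra h
      exact haS (Finset.mem_filter.2 ⟨Finset.mem_univ _, ha, by omega⟩))
    refine ⟨g, (Pool.Agent.H17.SN.near_iff G x g).2 h1, ?_⟩
    rw [ncard_N, hN2]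
    omega
  · intro V _ _ G hG
    obtain ⟨g, hg⟩ := Pool.Agent.H17.SN.sqrt_form hG
    refine ⟨g, ?_⟩
    have h1 : {p : V × V | NonAdj G p.1 p.2}.ncard =
        (Finset.univ.filter (fun p : V × V => Pool.Agent.H17.SN.Miss G p.1 p.2)).card := by
      rw [← Set.ncard_coe_finset]
      congr 1
      ext p
      rw [Finset.mem_coe, Finset.mem_filter]
      exact ⟨fun h => ⟨Finset.mem_univ _, h⟩, fun h => h.2⟩
    rw [ncard_N, hN2, h1]
    exact hg
  · exact Pool.Agent.H17.SN.G6_spec

end Pool.Agent.Results.MP_2bbbb5_co.WithinTwo
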